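import Pool.Agent.Q237.BD.Mel
import Pool.Agent.Q120.NB.Stm

set_option autoImplicit false

/-!
Project NB, job MEL: Mellin-Plancherel on the line `Re s = σ`.
-/

namespace Pool.Agent.Q129.NB

open Complex MeasureTheory Filter Topology Set
open Pool.Agent.Q286.BD Pool.Agent.Q120.NB
open scoped FourierTransform Real

/-- the Mellin transform of the difference -/
theorem dif_mellin (N : ℕ) (a : ℕ → ℂ) {s : ℂ} (hs0 : 0 < s.re) (hs1 : s.re < 1) :
    mellin (difC N a) s =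
      (1 + riemannZeta s * ∑ n ∈ Finset.Icc 1 N, a n * (n : ℂ) ^ (-s)) / s := by
  have h1 : HasMellin (indicator (Ioc 0 1) (fun _ => 1 : ℝ → ℂ)) s (1 / s) :=
    hasMellin_one_Ioc hs0
  have h2 : ∀ n ∈ Finset.Icc 1 N, HasMellin (fun x : ℝ => ((Int.fract (1 / ((n : ℝ) * x)) : ℝ) : ℂ)) s
      (-((n : ℂ) ^ (-s) * riemannZeta s / s)) := fun n hn =>
    Pool.Agent.Q237.BD.fr_hasMellin (Finset.mem_Icc.1 hn).1 hs0 hs1
  unfold mellin
  have e1 : ∀ x ∈ Ioi (0 : ℝ), (x : ℂ) ^ (s - 1) • difC N a x =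
      (x : ℂ) ^ (s - 1) • indicator (Ioc 0 1) (fun _ => 1 : ℝ → ℂ) x -
        ∑ n ∈ Finset.Icc 1 N, a n * ((x : ℂ) ^ (s - 1) • ((Int.fract (1 / ((n : ℝ) * x)) : ℝ) : ℂ)) := by
    intro x hx
    have hx0 : 0 < x := hx
    unfold difC
    have e2 : indicator (Ioc 0 1) (fun _ => 1 : ℝ → ℂ) x = (((if x ≤ 1 then 1 else 0 : ℝ)) : ℂ) := by
      by_cases h : x ≤ 1
      · have hmem : x ∈ Ioc (0 : ℝ) 1 := ⟨hx0, h⟩
        rw [indicator_of_mem hmem, if_pos h]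
        simp
      · rw [indicator_of_notMem (fun hm => h hm.2), if_neg h]
        simp
    rw [e2, smul_sub]
    congr 1
    rw [Finset.smul_sum]
    refine Finset.sum_congr rfl fun n _ => ?_
    simp only [smul_eq_mul]
    ring
  rw [setIntegral_congr_fun measurableSet_Ioi e1, integral_sub, integral_finsetSum]
  · have e3 : ∀ n ∈ Finset.Icc 1 N, ∫ x in Ioi (0 : ℝ),
        a n * ((x : ℂ) ^ (s - 1) • ((Int.fract (1 / ((n : ℝ) * x)) : ℝ) : ℂ)) =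
        a n * (-((n : ℂ) ^ (-s) * riemannZeta s / s)) := by
      intro n hn
      rw [integral_const_mul]
      congr 1
      exact (h2 n hn).2
    rw [Finset.sum_congr rfl e3]
    have e4 := h1.2
    unfold mellin at e4
    rw [e4, add_div, sub_eq_add_neg, ← Finset.sum_neg_distrib, Finset.mul_sum, Finset.sum_div]
    congr 1
    refine Finset.sum_congr rfl fun n _ => ?_
    ring
  · intro n hn
    exact ((h2 n hn).1).const_mul _
  · exact h1.1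
  · apply integrable_finsetSum
    intro n hn
    exact ((h2 n hn).1).const_mul _

/-- the function on the line -/
noncomputable def Gs (σ : ℝ) (N : ℕ) (a : ℕ → ℂ) (u : ℝ) : ℂ := Real.exp (-σ * u) • difC N a (Real.exp (-u))

theorem Gs_bd {σ : ℝ} (h0 : 0 < σ) (h1 : σ < 1) (N : ℕ) (a : ℕ → ℂ) (u : ℝ) :
    ‖Gs σ N a u‖ ≤ (1 + ∑ n ∈ Finset.Icc 1 N, ‖a n‖) * Real.exp (-(min σ (1 - σ) * |u|)) := by
  have hB : 0 ≤ 1 + ∑ n ∈ Finset.Icc 1 N, ‖a n‖ := by positivity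
  unfold Gs
  rw [norm_smul, Real.norm_eq_abs, abs_of_pos (Real.exp_pos _)]
  rcases le_or_gt 0 u with h | h
  · rw [abs_of_nonneg h, mul_comm]
    have h2 : Real.exp (-σ * u) ≤ Real.exp (-(min σ (1 - σ) * u)) := by
      apply Real.exp_le_exp.2
      nlinarith [min_le_left σ (1 - σ)]
    exact mul_le_mul (Pool.Agent.Q237.BD.difC_bd N a _) h2 (Real.exp_pos _).le hB
  · rw [abs_of_neg h]
    have h1 : 1 < Real.exp (-u) := Real.one_lt_exp_iff.2 (by linarith)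
    have h2 := Pool.Agent.Q237.BD.difC_right N a h1
    have h3 : Real.exp (-σ * u) / Real.exp (-u) ≤ Real.exp (-(min σ (1 - σ) * -u)) := by
      rw [← Real.exp_sub]
      apply Real.exp_le_exp.2
      nlinarith [min_le_right σ (1 - σ)]
    calc Real.exp (-σ * u) * ‖difC N a (Real.exp (-u))‖
        ≤ Real.exp (-σ * u) * ((1 + ∑ n ∈ Finset.Icc 1 N, ‖a n‖) / Real.exp (-u)) := by gcongr
      _ = (1 + ∑ n ∈ Finset.Icc 1 N, ‖a n‖) * (Real.exp (-σ * u) / Real.exp (-u)) := by ring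
      _ ≤ (1 + ∑ n ∈ Finset.Icc 1 N, ‖a n‖) * Real.exp (-(min σ (1 - σ) * -u)) :=
          mul_le_mul_of_nonneg_left h3 hB

theorem Gs_meas (σ : ℝ) (N : ℕ) (a : ℕ → ℂ) : Measurable (Gs σ N a) := by
  have h1 : Measurable (fun u : ℝ => Real.exp (-σ * u)) := by fun_prop
  have h2 : Measurable (fun u : ℝ => difC N a (Real.exp (-u))) :=
    (Pool.Agent.Q237.BD.difC_meas N a).comp (by fun_prop)
  exact h1.smul h2

theorem min_pos' {σ : ℝ} (h0 : 0 < σ) (h1 : σ < 1) : 0 < min σ (1 - σ) := lt_min h0 (by linarith)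

theorem Gs_int {σ : ℝ} (h0 : 0 < σ) (h1 : σ < 1) (N : ℕ) (a : ℕ → ℂ) : Integrable (Gs σ N a) :=
  Integrable.mono' ((Pool.Agent.Q237.BD.exp_abs_int (min_pos' h0 h1)).const_mul _)
    (Gs_meas σ N a).aestronglyMeasurable (Eventually.of_forall fun u => Gs_bd h0 h1 N a u)

theorem Gs_sq {σ : ℝ} (h0 : 0 < σ) (h1 : σ < 1) (N : ℕ) (a : ℕ → ℂ) :
    Integrable (fun u => ‖Gs σ N a u‖ ^ 2) := by
  have hm := min_pos' h0 h1
  have h2 := (Pool.Agent.Q237.BD.exp_abs_int (b := 2 * min σ (1 - σ)) (by positivity)).const_mul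
    ((1 + ∑ n ∈ Finset.Icc 1 N, ‖a n‖) ^ 2)
  refine Integrable.mono' h2 ((Gs_meas σ N a).norm.pow_const 2).aestronglyMeasurable
    (Eventually.of_forall fun u => ?_)
  rw [Real.norm_eq_abs, abs_of_nonneg (by positivity)]
  have h3 := Gs_bd h0 h1 N a u
  calc ‖Gs σ N a u‖ ^ 2 ≤ ((1 + ∑ n ∈ Finset.Icc 1 N, ‖a n‖) * Real.exp (-(min σ (1 - σ) * |u|))) ^ 2 :=
        pow_le_pow_left₀ (norm_nonneg _) h3 2
    _ = (1 + ∑ n ∈ Finset.Icc 1 N, ‖a n‖) ^ 2 * Real.exp (-(2 * min σ (1 - σ) * |u|)) := by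
        rw [mul_pow, ← Real.exp_nat_mul]
        congr 2
        push_cast
        ring

theorem Gs_mem {σ : ℝ} (h0 : 0 < σ) (h1 : σ < 1) (N : ℕ) (a : ℕ → ℂ) : MemLp (Gs σ N a) 2 :=
  (memLp_two_iff_integrable_sq_norm (Gs_meas σ N a).aestronglyMeasurable).2 (Gs_sq h0 h1 N a)

theorem ey_eq (N : ℕ) (a : ℕ → ℂ) (u : ℝ) : ey N a (Real.exp (-u)) = difC N a (Real.exp u) := by
  unfold ey difC
  have h1 : (1 ≤ Real.exp (-u)) ↔ (Real.exp u ≤ 1) := by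
    rw [Real.one_le_exp_iff, Real.exp_le_one_iff]
    constructor <;> intro h <;> linarith
  congr 1
  · by_cases h : Real.exp u ≤ 1
    · rw [if_pos h, if_pos (h1.2 h)]
      simp
    · rw [if_neg h, if_neg (fun h2 => h (h1.1 h2))]
      simp
  · refine Finset.sum_congr rfl fun n _ => ?_
    have h2 : Real.exp (-u) / (n : ℝ) = 1 / ((n : ℝ) * Real.exp u) := by
      rw [Real.exp_neg, one_div, mul_inv, div_eq_mul_inv, mul_comm]
    rw [h2]

theorem sq_eq (σ : ℝ) (N : ℕ) (a : ℕ → ℂ) (u : ℝ) :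
    Real.exp (-u) * (‖ey N a (Real.exp (-u))‖ ^ 2 * Real.exp (-u) ^ (-(2 * σ) - 1)) = ‖Gs σ N a (-u)‖ ^ 2 := by
  unfold Gs
  rw [ey_eq, norm_smul, Real.norm_eq_abs, abs_of_pos (Real.exp_pos _), mul_pow, ← Real.exp_nat_mul,
    ← Real.exp_mul, neg_neg]
  have h1 : Real.exp (-u) * (‖difC N a (Real.exp u)‖ ^ 2 * Real.exp (-u * (-(2 * σ) - 1))) =
      (Real.exp (-u) * Real.exp (-u * (-(2 * σ) - 1))) * ‖difC N a (Real.exp u)‖ ^ 2 := by ring
  rw [h1, ← Real.exp_add]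
  congr 2
  push_cast
  ring

theorem four_eq {σ : ℝ} (h0 : 0 < σ) (h1 : σ < 1) (N : ℕ) (a : ℕ → ℂ) (t : ℝ) :
    𝓕 (Gs σ N a) (t / (2 * π)) =
      (1 + riemannZeta (σ + t * I) * ∑ n ∈ Finset.Icc 1 N, a n * (n : ℂ) ^ (-((σ : ℂ) + t * I))) /
        ((σ : ℂ) + t * I) := by
  have hre : ((σ : ℂ) + t * I).re = σ := by simp
  have him : ((σ : ℂ) + t * I).im = t := by simp
  rw [← dif_mellin N a (s := (σ : ℂ) + t * I) (by rw [hre]; exact h0) (by rw [hre]; exact h1),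
    mellin_eq_fourier, hre, him]
  rfl

theorem cnorm (σ t : ℝ) : ‖((σ : ℂ) + t * I)‖ ^ 2 = σ ^ 2 + t ^ 2 := by
  rw [← Complex.normSq_eq_norm_sq, Complex.normSq_apply]
  simp
  ring

/-- **Job MEL.** -/
theorem t_MEL : J_MEL := by
  intro σ h0 h1 N a hN
  obtain ⟨hm, hpl⟩ := Pool.Agent.Helper625.Planch.plancherel (Gs σ N a) (Gs_int h0 h1 N a) (Gs_mem h0 h1 N a)
  have hFi : Integrable (fun w : ℝ => ‖𝓕 (Gs σ N a) w‖ ^ 2) := by
    have hmeas := hm.aestronglyMeasurable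
    exact (memLp_two_iff_integrable_sq_norm hmeas).1 hm
  have e1 : ∀ t : ℝ, ‖1 + riemannZeta (σ + t * I) *
      ∑ n ∈ Finset.Icc 1 N, a n * (n : ℂ) ^ (-((σ : ℂ) + t * I))‖ ^ 2 / (σ ^ 2 + t ^ 2) =
      (fun w : ℝ => ‖𝓕 (Gs σ N a) w‖ ^ 2) (t / (2 * π)) := by
    intro t
    simp only
    rw [four_eq h0 h1, norm_div, div_pow, cnorm]
  have hpi := Real.pi_pos
  have hsq := Gs_sq h0 h1 N a
  refine ⟨?_, ?_, ?_⟩
  · rw [(Pool.Agent.Q237.BD.exp_sub_int (fun y : ℝ => ‖ey N a y‖ ^ 2 * y ^ (-(2 * σ) - 1))).1]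
    simp only [sq_eq]
    exact hsq.comp_neg
  · simp only [e1]
    exact hFi.comp_div (by positivity)
  · rw [(Pool.Agent.Q237.BD.exp_sub_int (fun y : ℝ => ‖ey N a y‖ ^ 2 * y ^ (-(2 * σ) - 1))).2]
    simp only [sq_eq, e1]
    rw [Measure.integral_comp_div (fun w : ℝ => ‖𝓕 (Gs σ N a) w‖ ^ 2) (2 * π),
      integral_neg_eq_self (fun u => ‖Gs σ N a u‖ ^ 2), ← hpl,
      abs_of_pos (by positivity), smul_eq_mul]
    field_simp

end Pool.Agent.Q129.NB
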