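import Pool.Agent.Q129.NB.TRa
import Pool.Agent.Q120.NB.Stm
import Pool.Agent.Q210.BD.OrthR
import Pool.Agent.Q210.BD.Band
import Pool.Agent.Y23.Ze

set_option autoImplicit false

/-!
Project NB, job TR: the exactly orthogonal test functions for a zero with arbitrary real part.
-/

namespace Pool.Agent.Q129.NB

open Complex MeasureTheory Filter Topology Set
open Pool.Agent.Q286.BD (mz S_orthR S_band)
open Pool.Agent.Q258.BD (Good split_int bd_int cpow_meas)
open Pool.Agent.Q120.NB (J_TR)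

theorem mono_int (ρ : ℂ) (h0 : 0 < ρ.re) : IntegrableOn (fun y : ℝ => (y : ℂ) ^ (-ρ - 1)) (Ioi 1) := by
  refine integrableOn_Ioi_cpow_of_lt ?_ one_pos
  simp only [sub_re, neg_re, one_re]
  linarith

theorem mono_zero (ρ : ℂ) (h0 : 0 < ρ.re) : ∫ y in Ioi (1 : ℝ), (y : ℂ) ^ (-ρ - 1) = 1 / ρ := by
  have h := integral_Ioi_cpow_of_lt (a := -ρ - 1) (by simp only [sub_re, neg_re, one_re]; linarith) one_pos
  rw [h]
  simp

/-- the orthogonal function before the correction -/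
noncomputable def kr (ρ : ℂ) (y : ℝ) : ℂ := if y < 1 then 3 * (1 / (1 - ρ)) * y else (y : ℂ) ^ (-ρ - 1)

theorem kr_meas (ρ : ℂ) : Measurable (kr ρ) := by
  unfold kr
  refine Measurable.ite (measurableSet_lt measurable_id measurable_const) ?_ (cpow_meas _)
  exact measurable_ofReal.const_mul _

theorem kr_large (ρ : ℂ) (y : ℝ) (hy : 1 ≤ y) : kr ρ y = (y : ℂ) ^ (-ρ - 1) := by
  rw [kr, if_neg (not_lt.mpr hy)]

theorem kr_int (ρ : ℂ) (h0 : 0 < ρ.re) : IntegrableOn (kr ρ) (Ioi 0) := by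
  have e : Ioi (0 : ℝ) = Ioc 0 1 ∪ Ioi 1 := (Ioc_union_Ioi_eq_Ioi zero_le_one).symm
  rw [e]
  refine IntegrableOn.union ?_ ?_
  · rw [integrableOn_Ioc_iff_integrableOn_Ioo]
    have h1 : IntegrableOn (fun _ : ℝ => ‖3 * (1 / (1 - ρ))‖) (Ioo (0 : ℝ) 1) := by
      rw [integrableOn_const_iff]
      right
      simp
    refine h1.mono' (kr_meas ρ).aestronglyMeasurable ?_
    filter_upwards [ae_restrict_mem measurableSet_Ioo] with y hy
    rw [kr, if_pos hy.2, norm_mul (3 * (1 / (1 - ρ))), Complex.norm_real, Real.norm_eq_abs, abs_of_pos hy.1]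
    exact mul_le_of_le_one_right (norm_nonneg _) hy.2.le
  · refine (mono_int ρ h0).congr_fun (fun y hy => ?_) measurableSet_Ioi
    exact (kr_large ρ y (le_of_lt hy)).symm

/-- exact orthogonality before the correction -/
theorem kr_orth (ρ : ℂ) (hz : riemannZeta ρ = 0) (hρ0 : 0 < ρ.re) (hρ1 : ρ.re < 1) (θ : ℝ) (h0 : 0 < θ)
    (hθ : θ ≤ 1) : ∫ y in Ioi (0 : ℝ), ((Int.fract (θ * y) : ℝ) : ℂ) * kr ρ y = 0 := by
  rw [split_int (bd_int (kr_int ρ hρ0) θ)]
  have hmz : 0 < mz ρ := Pool.Agent.Y23.mu_pos ⟨hz, hρ0, hρ1⟩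
  obtain ⟨-, ho⟩ := Pool.Agent.Q210.BD.orthR ρ hρ0 hρ1 0 θ hmz h0 hθ
  simp only [pow_zero, mul_one, Nat.factorial_zero, Nat.cast_one, zero_add, pow_one] at ho
  have e1 : ∫ y in Ioo (0 : ℝ) 1, ((Int.fract (θ * y) : ℝ) : ℂ) * kr ρ y = θ * (1 / (1 - ρ)) := by
    have e2 : ∀ y ∈ Ioo (0 : ℝ) 1, ((Int.fract (θ * y) : ℝ) : ℂ) * kr ρ y =
        ((3 * y ^ 2 : ℝ) : ℂ) * (θ * (1 / (1 - ρ))) := by
      intro y hy
      have hfr : Int.fract (θ * y) = θ * y := by
        rw [Int.fract_eq_self]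
        constructor
        · have := hy.1
          positivity
        · nlinarith [hy.1, hy.2]
      rw [hfr, kr, if_pos hy.2]
      push_cast
      ring
    rw [setIntegral_congr_fun measurableSet_Ioo e2, integral_mul_const]
    have e3 : ∫ y in Ioo (0 : ℝ) 1, ((3 * y ^ 2 : ℝ) : ℂ) = 1 := by
      have e4 : ∫ y in Ioo (0 : ℝ) 1, ((3 * y ^ 2 : ℝ) : ℂ) =
          ((∫ y in Ioo (0 : ℝ) 1, (3 * y ^ 2 : ℝ) : ℝ) : ℂ) := integral_ofReal
      rw [e4, ← integral_Ioc_eq_integral_Ioo, ← intervalIntegral.integral_of_le zero_le_one,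
        intervalIntegral.integral_const_mul, integral_pow]
      norm_num
    rw [e3, one_mul]
  have e5 : ∫ y in Ioi (1 : ℝ), ((Int.fract (θ * y) : ℝ) : ℂ) * kr ρ y = -(θ * (1 / (1 - ρ))) := by
    rw [← ho]
    refine setIntegral_congr_fun measurableSet_Ioi fun y hy => ?_
    rw [kr_large ρ y (le_of_lt hy)]
  rw [e1, e5, add_neg_cancel]

theorem cpow_norm (ρ : ℂ) {y : ℝ} (hy : 0 < y) : ‖(y : ℂ) ^ (-ρ - 1)‖ = y ^ (-ρ.re - 1) := by
  rw [Complex.norm_cpow_eq_rpow_re_of_pos hy]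
  congr 1

/-- **Job TR.** -/
theorem t_TR : J_TR := by
  intro ρ hz h0 h1
  obtain ⟨F, hF, CF, hCF, hb⟩ := exists_F ρ h0 h1
  set κ : ℂ := 1 / (1 - ρ) with hκ
  refine ⟨3 * ‖κ‖ + 1 + CF, by positivity, fun lam hl0 hl1 => ?_⟩
  set q : ℂ := (lam : ℂ) ^ (ρ + 1) with hq
  have hqn : ‖q‖ = lam ^ (ρ.re + 1) := by
    rw [hq, Complex.norm_cpow_eq_rpow_re_of_pos hl0]
    congr 1
  have hq1 : ‖q‖ ≤ lam := by
    rw [hqn]
    calc lam ^ (ρ.re + 1) ≤ lam ^ (1 : ℝ) :=
          Real.rpow_le_rpow_of_exponent_ge hl0 hl1 (by linarith)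
      _ = lam := Real.rpow_one _
  set f : ℝ → ℂ := fun y => q * F (lam * y) with hf
  have hgood : Good lam f := (hF.scale hl0).mul q
  have hFs : ∀ v : ℝ, 0 < v → v ≤ 1 → ‖F v‖ ≤ CF := by
    intro v hv hv1
    have h3 := hb v hv
    rw [tg, if_neg (not_lt.mpr hv1), sub_zero] at h3
    have h4 := wb_le_one (b := ρ.re + 2) (by linarith) v
    nlinarith
  have hfb : ∀ y, 0 < y → lam * y ≤ 1 → ‖f y‖ ≤ ‖q‖ * CF := by
    intro y hy hy1
    rw [hf]
    simp only
    rw [norm_mul]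
    exact mul_le_mul_of_nonneg_left (hFs _ (mul_pos hl0 hy) hy1) (norm_nonneg _)
  have hkint := kr_int ρ h0
  have hfint : IntegrableOn f (Ioi 0) := hgood.int.integrableOn
  have hκ0 : 0 ≤ ‖κ‖ := norm_nonneg _
  -- the middle range
  have hmid : ∀ y : ℝ, 1 ≤ y → y ≤ 1 / lam → ‖kr ρ y - f y‖ ≤ (1 + CF) * y ^ (-ρ.re - 1) := by
    intro y hy1 hy2
    have hy0 : 0 < y := by linarith
    have hly : lam * y ≤ 1 := by
      rw [le_div_iff₀ hl0] at hy2
      linarith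
    have h3 := hfb y hy0 hly
    have h4 : ‖q‖ ≤ y ^ (-ρ.re - 1) := by
      rw [hqn]
      have h5 : lam ≤ 1 / y := by
        rw [le_div_iff₀ hy0]
        exact hly
      calc lam ^ (ρ.re + 1) ≤ (1 / y) ^ (ρ.re + 1) := Real.rpow_le_rpow hl0.le h5 (by linarith)
        _ = y ^ (-ρ.re - 1) := by
            rw [one_div, Real.inv_rpow hy0.le, ← Real.rpow_neg hy0.le]
            congr 1
            ring
    rw [kr_large ρ y hy1]
    calc ‖(y : ℂ) ^ (-ρ - 1) - f y‖ ≤ ‖(y : ℂ) ^ (-ρ - 1)‖ + ‖f y‖ := norm_sub_le _ _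
      _ ≤ y ^ (-ρ.re - 1) + y ^ (-ρ.re - 1) * CF := by
          rw [cpow_norm ρ hy0]
          have : ‖q‖ * CF ≤ y ^ (-ρ.re - 1) * CF := mul_le_mul_of_nonneg_right h4 hCF.le
          linarith
      _ = _ := by ring
  refine ⟨fun y => kr ρ y - f y, (kr_meas ρ).sub hgood.cont.measurable, hkint.sub hfint, ?_, ?_, ?_, ?_, ?_⟩
  · intro θ hθ0 hθ1
    have e1 : (fun y : ℝ => ((Int.fract (θ * y) : ℝ) : ℂ) * (kr ρ y - f y)) =
        fun y : ℝ => ((Int.fract (θ * y) : ℝ) : ℂ) * kr ρ y - ((Int.fract (θ * y) : ℝ) : ℂ) * f y := by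
      funext y
      ring
    rw [e1, integral_sub (bd_int hkint θ) (bd_int hfint θ),
      kr_orth ρ hz h0 h1 θ (hl0.trans_le hθ0) hθ1,
      Pool.Agent.Q210.BD.band f lam hl0 hgood.cont hgood.int hgood.odd hgood.spec hgood.mean θ hθ0, sub_zero]
  · have e1 : ∫ y in Ioi (1 : ℝ), (kr ρ y - f y) =
        (∫ y in Ioi (1 : ℝ), kr ρ y) - ∫ y in Ioi (1 : ℝ), f y :=
      integral_sub (hkint.mono_set (Ioi_subset_Ioi zero_le_one))
        (hfint.mono_set (Ioi_subset_Ioi zero_le_one))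
    have e2 : ∫ y in Ioi (1 : ℝ), f y = -∫ y in Ioo (0 : ℝ) 1, f y := by
      have h3 := split_int hfint
      rw [hgood.mean] at h3
      linear_combination -h3
    have e3 : ∫ y in Ioi (1 : ℝ), kr ρ y = 1 / ρ := by
      rw [← mono_zero ρ h0]
      exact setIntegral_congr_fun measurableSet_Ioi fun y hy => kr_large ρ y (le_of_lt hy)
    have h4 : ‖∫ y in Ioo (0 : ℝ) 1, f y‖ ≤ ‖q‖ * CF := by
      have h5 := norm_setIntegral_le_of_norm_le_const (μ := volume) (s := Ioo (0 : ℝ) 1) (f := f)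
        (C := ‖q‖ * CF) (by simp) (fun y hy => hfb y hy.1 (by nlinarith [hy.1, hy.2]))
      simpa using h5
    rw [e1, e2, e3]
    calc ‖1 / ρ - -(∫ y in Ioo (0 : ℝ) 1, f y) - 1 / ρ‖ = ‖∫ y in Ioo (0 : ℝ) 1, f y‖ := by
          congr 1
          ring
      _ ≤ ‖q‖ * CF := h4
      _ ≤ lam * CF := mul_le_mul_of_nonneg_right hq1 hCF.le
      _ ≤ (3 * ‖κ‖ + 1 + CF) * lam := by nlinarith
  · intro y hy0 hy1
    have hly : lam * y ≤ 1 := by nlinarith
    have h3 := hfb y hy0 hly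
    have h4 : ‖kr ρ y‖ ≤ 3 * ‖κ‖ + 1 := by
      rcases lt_or_eq_of_le hy1 with h5 | h5
      · rw [kr, if_pos h5, norm_mul, norm_mul, Complex.norm_real, Real.norm_eq_abs, abs_of_pos hy0]
        have h6 : ‖(3 : ℂ)‖ = 3 := by simp
        rw [h6]
        nlinarith [mul_nonneg hκ0 (sub_nonneg.2 hy1)]
      · rw [kr_large ρ y h5.ge, cpow_norm ρ hy0, h5, Real.one_rpow]
        linarith
    calc ‖kr ρ y - f y‖ ≤ ‖kr ρ y‖ + ‖f y‖ := norm_sub_le _ _
      _ ≤ 3 * ‖κ‖ + 1 + CF := by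
          have : ‖q‖ * CF ≤ 1 * CF := mul_le_mul_of_nonneg_right (hq1.trans hl1) hCF.le
          linarith
  · intro y hy1 hy2
    have hy0 : 0 < y := by linarith
    refine (hmid y hy1 hy2).trans (mul_le_mul_of_nonneg_right (by linarith) (Real.rpow_nonneg hy0.le _))
  · intro y hy
    have hy1 : 1 ≤ y := by
      refine le_trans ?_ hy
      rw [le_div_iff₀ hl0]
      linarith
    have hy0 : 0 < y := by linarith
    have hly0 : 0 < lam * y := mul_pos hl0 hy0
    have hly1 : 1 ≤ lam * y := by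
      rw [div_le_iff₀ hl0] at hy
      linarith
    rcases eq_or_lt_of_le hly1 with h5 | h5
    · -- the boundary point
      have h6 : y = 1 / lam := by
        field_simp
        linarith
      have h7 := hmid y hy1 h6.le
      have h8 : y ^ (-ρ.re - 1) = lam⁻¹ * y ^ (-ρ.re - 2) := by
        have h9 : lam⁻¹ = y := by rw [h6, one_div]
        rw [h9]
        have h10 : y ^ (-ρ.re - 1) = y ^ (1 + (-ρ.re - 2)) := by
          congr 1
          ring
        rw [h10, Real.rpow_add hy0, Real.rpow_one]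
      rw [h8] at h7
      refine h7.trans ?_
      rw [← mul_assoc]
      have h9 : 0 ≤ lam⁻¹ := inv_nonneg.2 hl0.le
      exact mul_le_mul_of_nonneg_right (mul_le_mul_of_nonneg_right (by linarith) h9)
        (Real.rpow_nonneg hy0.le _)
    · have e1 : kr ρ y - f y = -(q * (F (lam * y) - tg ρ (lam * y))) := by
        have h4 : q * ((lam * y : ℝ) : ℂ) ^ (-ρ - 1) = (y : ℂ) ^ (-ρ - 1) := by
          have hne1 : ((lam * y : ℝ) : ℂ) ≠ 0 := by exact_mod_cast hly0.ne'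
          have hne2 : (y : ℂ) ≠ 0 := by exact_mod_cast hy0.ne'
          have hne3 : (lam : ℂ) ≠ 0 := by exact_mod_cast hl0.ne'
          rw [hq, Complex.cpow_def_of_ne_zero hne1, Complex.cpow_def_of_ne_zero hne2,
            Complex.cpow_def_of_ne_zero hne3,
            ← Complex.ofReal_log hly0.le, ← Complex.ofReal_log hy0.le, ← Complex.ofReal_log hl0.le,
            Real.log_mul hl0.ne' hy0.ne', ← Complex.exp_add]
          congr 1
          push_cast
          ring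
        rw [kr_large ρ y hy1, tg, if_pos h5, ← h4]
        simp only [hf]
        ring
      show ‖kr ρ y - f y‖ ≤ _
      rw [e1, norm_neg, norm_mul, hqn]
      have h6 := hb (lam * y) hly0
      have h7 := wb_le_pow (b := ρ.re + 2) (by linarith) hly0
      have h8 : lam ^ (ρ.re + 1) * (lam * y) ^ (-(ρ.re + 2)) = lam⁻¹ * y ^ (-ρ.re - 2) := by
        rw [Real.mul_rpow hl0.le hy0.le, ← mul_assoc, ← Real.rpow_add hl0]
        congr 1
        · rw [← Real.rpow_neg_one]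
          congr 1
          ring
        · congr 1
          ring
      calc lam ^ (ρ.re + 1) * ‖F (lam * y) - tg ρ (lam * y)‖
          ≤ lam ^ (ρ.re + 1) * (CF * (lam * y) ^ (-(ρ.re + 2))) := by
            have : CF * wb (ρ.re + 2) (lam * y) ≤ CF * (lam * y) ^ (-(ρ.re + 2)) :=
              mul_le_mul_of_nonneg_left h7 hCF.le
            exact mul_le_mul_of_nonneg_left (h6.trans this) (Real.rpow_nonneg hl0.le _)
        _ = CF * (lam ^ (ρ.re + 1) * (lam * y) ^ (-(ρ.re + 2))) := by ring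
        _ = CF * (lam⁻¹ * y ^ (-ρ.re - 2)) := by rw [h8]
        _ ≤ (3 * ‖κ‖ + 1 + CF) * (lam⁻¹ * y ^ (-ρ.re - 2)) := by
            have h9 : 0 ≤ lam⁻¹ * y ^ (-ρ.re - 2) := mul_nonneg (inv_nonneg.2 hl0.le) (Real.rpow_nonneg hy0.le _)
            exact mul_le_mul_of_nonneg_right (by linarith) h9
        _ = (3 * ‖κ‖ + 1 + CF) * lam⁻¹ * y ^ (-ρ.re - 2) := by ring

end Pool.Agent.Q129.NB
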