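import Pool.Agent.Q258.BD.TR

set_option autoImplicit false

/-!
Project NB, job TR, part 1: the band limited functions for a zero with arbitrary real part.
-/

namespace Pool.Agent.Q129.NB

open Complex MeasureTheory Filter Topology Set SchwartzMap
open Pool.Agent.Q258.BD (el el_nonneg el_cont el_neg el_deriv Band Good fourier_exp exp_int exists_phi schwartz_decay)
open scoped FourierTransform Convolution

/-- `e^{-z s}` -/
noncomputable def hz (z : ℂ) (s : ℝ) : ℂ := cexp (-(z * s))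

theorem hz_deriv (z : ℂ) (s : ℝ) : HasDerivAt (hz z) (-z * hz z s) s := by
  have h1 : HasDerivAt (fun s : ℝ => (s : ℂ)) 1 s := by
    simpa using (hasDerivAt_id s).ofReal_comp
  have h2 : HasDerivAt (fun s : ℝ => cexp (-(z * s))) (cexp (-(z * s)) * (-(z * 1))) s :=
    ((h1.const_mul z).neg).cexp
  refine h2.congr_deriv ?_
  simp only [hz]
  ring

theorem hz_cont (z : ℂ) : Continuous (hz z) := by
  unfold hz
  fun_prop

theorem hz_norm (z : ℂ) (s : ℝ) : ‖hz z s‖ = Real.exp (-z.re * s) := by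
  rw [hz, Complex.norm_exp]
  congr 1
  simp

/-- the weight `(1+v^2)^{-b/2}` -/
noncomputable def wb (b v : ℝ) : ℝ := (1 + v ^ 2) ^ (-(b / 2))

theorem wb_pos (b v : ℝ) : 0 < wb b v := Real.rpow_pos_of_pos (by positivity) _

theorem wb_eq (b v : ℝ) : wb b v = Real.exp (-b * el v) := by
  rw [wb, Real.rpow_def_of_pos (by positivity), el]
  congr 1
  ring

theorem wb_le_one {b : ℝ} (hb : 0 ≤ b) (v : ℝ) : wb b v ≤ 1 :=
  Real.rpow_le_one_of_one_le_of_nonpos (by nlinarith [sq_nonneg v]) (by linarith)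

theorem wb_le_pow {b : ℝ} (hb : 0 ≤ b) {v : ℝ} (hv : 0 < v) : wb b v ≤ v ^ (-b) := by
  have h1 : v ^ (-b) = (v ^ 2) ^ (-(b / 2)) := by
    rw [← Real.rpow_natCast, ← Real.rpow_mul hv.le]
    congr 1
    push_cast
    ring
  rw [h1, wb]
  exact Real.rpow_le_rpow_of_nonpos (by positivity) (by linarith) (by linarith)

theorem wb_le {b : ℝ} (hb0 : 0 ≤ b) (hb : b ≤ 3) (x v w : ℝ) (h : |v - x| ≤ |w|) :
    wb b x ≤ 4 * wb b v * (1 + w ^ 2) ^ 2 := by
  have h1 : (v - x) ^ 2 ≤ w ^ 2 := sq_le_sq.mpr h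
  have h2 : 1 + v ^ 2 ≤ 2 * ((1 + x ^ 2) * (1 + w ^ 2)) := by
    nlinarith [sq_nonneg (x + (x - v)), sq_nonneg x, mul_nonneg (sq_nonneg x) (sq_nonneg w)]
  have hx : (0 : ℝ) < 1 + x ^ 2 := by positivity
  have hv : (0 : ℝ) < 1 + v ^ 2 := by positivity
  have hw : (1 : ℝ) ≤ 1 + w ^ 2 := by nlinarith [sq_nonneg w]
  have h3 : (1 + v ^ 2) ^ (b / 2) ≤ (2 * ((1 + x ^ 2) * (1 + w ^ 2))) ^ (b / 2) :=
    Real.rpow_le_rpow hv.le h2 (by linarith)
  rw [Real.mul_rpow (by norm_num) (by positivity), Real.mul_rpow hx.le (by positivity)] at h3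
  have h4 : (2 : ℝ) ^ (b / 2) ≤ 4 := by
    calc (2 : ℝ) ^ (b / 2) ≤ (2 : ℝ) ^ (2 : ℝ) :=
          Real.rpow_le_rpow_of_exponent_le (by norm_num) (by linarith)
      _ = 4 := by norm_num
  have h5 : (1 + w ^ 2) ^ (b / 2) ≤ (1 + w ^ 2) ^ 2 := by
    calc (1 + w ^ 2) ^ (b / 2) ≤ (1 + w ^ 2) ^ (2 : ℝ) :=
          Real.rpow_le_rpow_of_exponent_le hw (by linarith)
      _ = (1 + w ^ 2) ^ 2 := by norm_num
  have hX : 0 < (1 + x ^ 2) ^ (b / 2) := Real.rpow_pos_of_pos hx _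
  have hV : 0 < (1 + v ^ 2) ^ (b / 2) := Real.rpow_pos_of_pos hv _
  have h6 : (1 + v ^ 2) ^ (b / 2) ≤ 4 * ((1 + x ^ 2) ^ (b / 2) * (1 + w ^ 2) ^ 2) := by
    refine h3.trans ?_
    gcongr
  rw [wb, wb, Real.rpow_neg hx.le, Real.rpow_neg hv.le]
  rw [inv_le_iff_one_le_mul₀ hX]
  have h7 : 4 * ((1 + v ^ 2) ^ (b / 2))⁻¹ * (1 + w ^ 2) ^ 2 * (1 + x ^ 2) ^ (b / 2) =
      (4 * ((1 + x ^ 2) ^ (b / 2) * (1 + w ^ 2) ^ 2)) / (1 + v ^ 2) ^ (b / 2) := by
    rw [div_eq_mul_inv]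
    ring
  rw [h7, le_div_iff₀ hV, one_mul]
  exact h6

/-- the model -/
noncomputable def Gz (z : ℂ) (v : ℝ) : ℂ := (v : ℂ) * hz z (el v)

/-- its derivative -/
noncomputable def Gzd (z : ℂ) (v : ℝ) : ℂ :=
  hz z (el v) + (v : ℂ) * ((v / (1 + v ^ 2) : ℝ) • (-z * hz z (el v)))

theorem Gz_deriv (z : ℂ) (v : ℝ) : HasDerivAt (Gz z) (Gzd z v) v := by
  have h1 : HasDerivAt (fun s : ℝ => (s : ℂ)) 1 v := by
    simpa using (hasDerivAt_id v).ofReal_comp
  have h2 : HasDerivAt (fun v => hz z (el v)) ((v / (1 + v ^ 2) : ℝ) • (-z * hz z (el v))) v :=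
    HasDerivAt.scomp v (hz_deriv z (el v)) (el_deriv v)
  have h3 := h1.mul h2
  refine h3.congr_deriv ?_
  simp only [Gzd]
  ring

theorem Gz_cont (z : ℂ) : Continuous (Gz z) := by
  unfold Gz
  exact (continuous_ofReal).mul ((hz_cont z).comp el_cont)

theorem Gz_odd (z : ℂ) (v : ℝ) : Gz z (-v) = -Gz z v := by
  unfold Gz
  rw [el_neg]
  push_cast
  ring

theorem Gzd_bound (z : ℂ) (v : ℝ) : ‖Gzd z v‖ ≤ (1 + ‖z‖) * wb z.re v := by
  have a1 : ‖hz z (el v)‖ = wb z.re v := by rw [hz_norm, wb_eq]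
  have h3 : ‖(v : ℂ) * ((v / (1 + v ^ 2) : ℝ) • (-z * hz z (el v)))‖ ≤ ‖-z * hz z (el v)‖ := by
    rw [norm_mul, norm_smul, Complex.norm_real, ← mul_assoc, ← norm_mul]
    have : ‖v * (v / (1 + v ^ 2))‖ ≤ 1 := by
      rw [Real.norm_eq_abs, abs_of_nonneg (by
        rw [← mul_div_assoc]
        exact div_nonneg (mul_self_nonneg v) (by positivity)), ← mul_div_assoc,
        div_le_one (by positivity)]
      nlinarith
    calc _ ≤ 1 * ‖-z * hz z (el v)‖ := by gcongr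
      _ = _ := one_mul _
  calc ‖Gzd z v‖ ≤ ‖hz z (el v)‖ + ‖(v : ℂ) * ((v / (1 + v ^ 2) : ℝ) • (-z * hz z (el v)))‖ :=
        norm_add_le _ _
    _ ≤ wb z.re v + ‖z‖ * wb z.re v := by
        refine add_le_add a1.le (h3.trans (le_of_eq ?_))
        rw [norm_mul, norm_neg, a1]
    _ = (1 + ‖z‖) * wb z.re v := by ring

/-- the model decays like `(1+v^2)^{-(b-1)/2}` -/
theorem Gz_bound (z : ℂ) (v : ℝ) : ‖Gz z v‖ ≤ wb (z.re - 1) v := by
  have h2 : |v| ≤ Real.exp (el v) := by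
    have h3 : Real.exp (el v) ^ 2 = 1 + v ^ 2 := by
      rw [← Real.exp_nat_mul, el]
      push_cast
      rw [mul_div_cancel₀ _ (by norm_num : (2 : ℝ) ≠ 0), Real.exp_log (by positivity)]
    apply abs_le_of_sq_le_sq _ (Real.exp_pos _).le |> fun h => h
    rw [h3]
    linarith
  rw [Gz, norm_mul, Complex.norm_real, Real.norm_eq_abs, hz_norm, wb_eq]
  calc |v| * Real.exp (-z.re * el v) ≤ Real.exp (el v) * Real.exp (-z.re * el v) := by
        gcongr
    _ = _ := by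
        rw [← Real.exp_add]
        congr 1
        ring

theorem Gz_sub (z : ℂ) (hb0 : 0 ≤ z.re) (hb : z.re ≤ 3) (v w : ℝ) :
    ‖Gz z (v - w) - Gz z v‖ ≤ 4 * (1 + ‖z‖) * wb z.re v * (|w| * (1 + w ^ 2) ^ 2) := by
  have h1 := (convex_uIcc v (v - w)).norm_image_sub_le_of_norm_hasDerivWithin_le
    (f := Gz z) (f' := Gzd z) (C := (1 + ‖z‖) * (4 * wb z.re v * (1 + w ^ 2) ^ 2))
    (fun x _ => (Gz_deriv z x).hasDerivWithinAt) (fun x hx => by
      refine (Gzd_bound z x).trans ?_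
      have h2 : |v - x| ≤ |w| := by
        have := abs_sub_left_of_mem_uIcc hx
        rw [abs_sub_comm] at this
        simpa using this
      have := wb_le hb0 hb x v w h2
      gcongr) left_mem_uIcc right_mem_uIcc
  refine h1.trans (le_of_eq ?_)
  rw [show v - w - v = -w by ring, norm_neg, Real.norm_eq_abs]
  ring

theorem Gz_int (z : ℂ) (hb : 2 < z.re) : Integrable (Gz z) := by
  have h1 : Integrable (fun x : ℝ => ((1 : ℝ) + ‖x‖ ^ 2) ^ (-(z.re - 1) / 2)) :=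
    integrable_rpow_neg_one_add_norm_sq (by simp; linarith)
  refine h1.mono' (Gz_cont z).aestronglyMeasurable (Eventually.of_forall fun x => ?_)
  refine (Gz_bound z x).trans (le_of_eq ?_)
  rw [wb, Real.norm_eq_abs, sq_abs]
  congr 1
  ring

theorem Gz_bdd (z : ℂ) (hb : 2 < z.re) (v : ℝ) : ‖Gz z v‖ ≤ 1 :=
  (Gz_bound z v).trans (wb_le_one (by linarith) v)

/-- the convolution of the model with the band limited kernel -/
theorem exists_F0 (z : ℂ) (hb : 2 < z.re) (hb3 : z.re ≤ 3) (Ψ : 𝓢(ℝ, ℂ)) (hev : ∀ x, Ψ (-x) = Ψ x)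
    (hspec : ∀ ξ : ℝ, 1 ≤ |ξ| → 𝓕 (Ψ : ℝ → ℂ) ξ = 0) (hint : ∫ x, Ψ x = 1) :
    ∃ F : ℝ → ℂ, Band F ∧ ∃ C : ℝ, 0 < C ∧ ∀ v, ‖F v - Gz z v‖ ≤ C * wb z.re v := by
  have hbd := Gz_bdd z hb
  have hsub := Gz_sub z (by linarith) hb3
  have hG := Gz_int z hb
  have hGc := Gz_cont z
  set C : ℝ := 4 * (1 + ‖z‖) with hC
  have hC0 : 0 < C := by positivity
  set F : ℝ → ℂ := (Ψ : ℝ → ℂ) ⋆[ContinuousLinearMap.mul ℂ ℂ, volume] Gz z with hF
  have hFv : ∀ v, F v = ∫ w, Ψ w * Gz z (v - w) := by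
    intro v
    rw [hF, convolution_def]
    rfl
  refine ⟨F, ⟨?_, ?_, ?_, ?_⟩, ?_⟩
  · apply BddAbove.continuous_convolution_right_of_integrable _ _ Ψ.integrable hGc
    exact ⟨1, by rintro _ ⟨v, rfl⟩; exact hbd v⟩
  · exact Ψ.integrable.integrable_convolution _ hG
  · intro y
    rw [hFv, hFv, ← integral_neg_eq_self, ← integral_neg]
    congr 1
    funext w
    rw [hev, show -y - -w = -(y - w) by ring, Gz_odd]
    ring
  · intro ξ hξ
    rw [hF, Real.fourier_mul_convolution_eq Ψ.integrable hG, hspec ξ hξ, zero_mul]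
  · have hW : Integrable (fun w : ℝ => ‖Ψ w‖ * (|w| * (1 + w ^ 2) ^ 2)) := by
      have h1 := Ψ.integrable_pow_mul volume 1
      have h3 := (Ψ.integrable_pow_mul volume 3).const_mul 2
      have h5 := Ψ.integrable_pow_mul volume 5
      have := (h1.add h3).add h5
      refine this.congr (Eventually.of_forall fun w => ?_)
      simp only [Pi.add_apply, Real.norm_eq_abs]
      rw [← sq_abs w]
      ring
    refine ⟨C * (∫ w, ‖Ψ w‖ * (|w| * (1 + w ^ 2) ^ 2)) + 1, ?_, fun v => ?_⟩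
    · have : 0 ≤ ∫ w, ‖Ψ w‖ * (|w| * (1 + w ^ 2) ^ 2) := integral_nonneg fun w => by positivity
      positivity
    · have hI : Integrable (fun w => Ψ w * Gz z (v - w)) := by
        refine Ψ.integrable.mul_bdd (c := 1) ?_ ?_
        · exact (hGc.comp (by fun_prop)).aestronglyMeasurable
        · exact Eventually.of_forall fun w => hbd _
      have e1 : F v - Gz z v = ∫ w, Ψ w * (Gz z (v - w) - Gz z v) := by
        have e2 : Gz z v = ∫ w, Ψ w * Gz z v := by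
          rw [integral_mul_const, hint, one_mul]
        rw [hFv]
        conv_lhs => rw [e2]
        rw [← integral_sub hI (Ψ.integrable.mul_const _)]
        congr 1
        funext w
        ring
      rw [e1]
      calc ‖∫ w, Ψ w * (Gz z (v - w) - Gz z v)‖
          ≤ ∫ w, (C * wb z.re v) * (‖Ψ w‖ * (|w| * (1 + w ^ 2) ^ 2)) := by
            refine norm_integral_le_of_norm_le (hW.const_mul _) (Eventually.of_forall fun w => ?_)
            rw [norm_mul]
            calc ‖Ψ w‖ * ‖Gz z (v - w) - Gz z v‖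
                ≤ ‖Ψ w‖ * (C * wb z.re v * (|w| * (1 + w ^ 2) ^ 2)) := by
                  gcongr
                  exact hsub v w
              _ = _ := by ring
        _ = C * (∫ w, ‖Ψ w‖ * (|w| * (1 + w ^ 2) ^ 2)) * wb z.re v := by
            rw [integral_const_mul]
            ring
        _ ≤ _ := by
            have := (wb_pos z.re v).le
            nlinarith

/-- the target -/
noncomputable def tg (ρ : ℂ) (v : ℝ) : ℂ := if 1 < v then (v : ℂ) ^ (-ρ - 1) else 0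

theorem wb_ge_of_le_one {b v : ℝ} (hb0 : 0 ≤ b) (hb : b ≤ 3) (h0 : 0 < v) (h1 : v ≤ 1) : 1 / 4 ≤ wb b v := by
  have h2 : 1 + v ^ 2 ≤ 2 := by nlinarith
  have h3 : (2 : ℝ) ^ (-(b / 2)) ≤ wb b v := by
    rw [wb]
    exact Real.rpow_le_rpow_of_nonpos (by positivity) h2 (by linarith)
  have h4 : (2 : ℝ) ^ (-2 : ℝ) ≤ (2 : ℝ) ^ (-(b / 2)) :=
    Real.rpow_le_rpow_of_exponent_le (by norm_num) (by linarith)
  have h5 : (2 : ℝ) ^ (-2 : ℝ) = 1 / 4 := by
    rw [Real.rpow_neg (by norm_num)]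
    norm_num
  linarith

theorem Gz_tg (ρ : ℂ) (h0 : 0 < ρ.re) (h1 : ρ.re < 1) (v : ℝ) (hv : 0 < v) :
    ‖Gz (ρ + 2) v - tg ρ v‖ ≤ (4 + ‖ρ + 2‖ * Real.exp (3 / 2)) * wb (ρ.re + 2) v := by
  have hre : (ρ + 2).re = ρ.re + 2 := by simp
  have hb := Gz_bdd (ρ + 2) (by rw [hre]; linarith)
  have hw := wb_pos (ρ.re + 2) v
  have he := Real.exp_pos (3 / 2 : ℝ)
  by_cases h1 : 1 < v
  swap
  · rw [tg, if_neg h1, sub_zero]
    have h2 := wb_ge_of_le_one (b := ρ.re + 2) (by linarith) (by linarith) hv (not_lt.mp h1)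
    have h3 := hb v
    have h4 : 0 ≤ ‖ρ + 2‖ * Real.exp (3 / 2) * wb (ρ.re + 2) v := by positivity
    nlinarith
  · have hlog : 0 < Real.log v := Real.log_pos h1
    have e1 : tg ρ v = (v : ℂ) * hz (ρ + 2) (Real.log v) := by
      rw [tg, if_pos h1, hz]
      have hvc : (v : ℂ) ≠ 0 := by exact_mod_cast hv.ne'
      rw [Complex.cpow_def_of_ne_zero hvc, ← Complex.ofReal_log hv.le]
      have h5 : (v : ℂ) = cexp ((Real.log v : ℝ) : ℂ) := by
        rw [← Complex.ofReal_exp, Real.exp_log hv]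
      conv_rhs => rw [h5]
      rw [← Complex.exp_add]
      congr 1
      ring
    have h2 : el v - Real.log v ≤ 1 / (2 * v ^ 2) := by
      have h3 : el v - Real.log v = Real.log (1 + 1 / v ^ 2) / 2 := by
        have h4 : 1 + v ^ 2 = v ^ 2 * (1 + 1 / v ^ 2) := by field_simp; ring
        rw [el, h4, Real.log_mul (by positivity) (by positivity), Real.log_pow]
        push_cast
        ring
      rw [h3]
      have h5 := Real.log_le_sub_one_of_pos (x := 1 + 1 / v ^ 2) (by positivity)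
      have h6 : 1 / (2 * v ^ 2) = (1 / v ^ 2) / 2 := by field_simp
      rw [h6]
      linarith
    have h3 : Real.log v ≤ el v := by
      have : Real.log (v ^ 2) ≤ Real.log (1 + v ^ 2) :=
        Real.log_le_log (by positivity) (by linarith)
      rw [Real.log_pow] at this
      push_cast at this
      rw [el]
      linarith
    have h4 := (convex_Icc (Real.log v) (el v)).norm_image_sub_le_of_norm_hasDerivWithin_le
      (f := hz (ρ + 2)) (f' := fun x => -(ρ + 2) * hz (ρ + 2) x)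
      (C := ‖ρ + 2‖ * Real.exp (-(ρ.re + 2) * Real.log v))
      (fun x _ => (hz_deriv _ x).hasDerivWithinAt) (fun x hx => by
        rw [norm_mul, norm_neg, hz_norm, hre]
        refine mul_le_mul_of_nonneg_left (Real.exp_le_exp.mpr ?_) (norm_nonneg _)
        nlinarith [hx.1]) (left_mem_Icc.mpr h3) (right_mem_Icc.mpr h3)
    rw [Real.norm_eq_abs, abs_of_nonneg (by linarith)] at h4
    -- comparison of weights
    have h5 : Real.exp (-(ρ.re + 2) * Real.log v) ≤ Real.exp (3 / 2) * wb (ρ.re + 2) v := by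
      rw [wb_eq, ← Real.exp_add]
      apply Real.exp_le_exp.mpr
      have h6 : el v ≤ Real.log v + 1 / 2 := by
        have : 1 / (2 * v ^ 2) ≤ 1 / 2 := by
          apply one_div_le_one_div_of_le (by norm_num)
          nlinarith
        linarith
      nlinarith
    rw [e1, Gz, ← mul_sub, norm_mul, Complex.norm_real, Real.norm_eq_abs, abs_of_pos hv]
    have h11 : ‖hz (ρ + 2) (el v) - hz (ρ + 2) (Real.log v)‖ ≤
        ‖ρ + 2‖ * (Real.exp (3 / 2) * wb (ρ.re + 2) v) * (1 / (2 * v ^ 2)) := by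
      refine h4.trans ?_
      have h12 : ‖ρ + 2‖ * Real.exp (-(ρ.re + 2) * Real.log v) ≤ ‖ρ + 2‖ * (Real.exp (3 / 2) * wb (ρ.re + 2) v) :=
        mul_le_mul_of_nonneg_left h5 (norm_nonneg _)
      exact mul_le_mul h12 h2 (by linarith) (by positivity)
    calc v * ‖hz (ρ + 2) (el v) - hz (ρ + 2) (Real.log v)‖
        ≤ v * (‖ρ + 2‖ * (Real.exp (3 / 2) * wb (ρ.re + 2) v) * (1 / (2 * v ^ 2))) :=
          mul_le_mul_of_nonneg_left h11 hv.le
      _ = ‖ρ + 2‖ * (Real.exp (3 / 2) * wb (ρ.re + 2) v) * (1 / (2 * v)) := by field_simp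
      _ ≤ ‖ρ + 2‖ * (Real.exp (3 / 2) * wb (ρ.re + 2) v) * 1 := by
          have : 1 / (2 * v) ≤ 1 := by
            rw [div_le_one (by positivity)]
            linarith
          gcongr
      _ ≤ (4 + ‖ρ + 2‖ * Real.exp (3 / 2)) * wb (ρ.re + 2) v := by
          nlinarith

/-- **the band limited functions with the prescribed behaviour at infinity** -/
theorem exists_F (ρ : ℂ) (h0 : 0 < ρ.re) (h1 : ρ.re < 1) : ∃ F : ℝ → ℂ, Good 1 F ∧
    ∃ C : ℝ, 0 < C ∧ ∀ v : ℝ, 0 < v → ‖F v - tg ρ v‖ ≤ C * wb (ρ.re + 2) v := by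
  have hre : (ρ + 2).re = ρ.re + 2 := by simp
  obtain ⟨Ψ, Φ, hev, hspec, hint, hΦ, hne⟩ := exists_phi
  obtain ⟨F0, hF0, C1, hC1, h1'⟩ := exists_F0 (ρ + 2) (by rw [hre]; linarith) (by rw [hre]; linarith)
    Ψ hev hspec hint
  rw [hre] at h1'
  have h2 := Gz_tg ρ h0 h1
  obtain ⟨C3, hC3, h3⟩ := schwartz_decay Φ
  set C2 : ℝ := 4 + ‖ρ + 2‖ * Real.exp (3 / 2) with hC2
  have hC20 : 0 < C2 := by positivity
  set c : ℂ := -(∫ y in Ioi (0 : ℝ), F0 y) / ∫ x in Ioi (0 : ℝ), Φ x with hc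
  refine ⟨fun y => F0 y + c * Φ y, ⟨hF0.cont.add (hΦ.cont.const_mul c), hF0.int.add (hΦ.int.const_mul c),
    fun y => ?_, fun ξ hξ => ?_, ?_⟩, C1 + C2 + ‖c‖ * C3, by positivity, fun v hv => ?_⟩
  · rw [hF0.odd, hΦ.odd]; ring
  · have e1 := hF0.spec ξ hξ
    have e2 := hΦ.spec ξ hξ
    rw [fourier_exp] at e1 e2
    have : (fun y : ℝ => cexp (-(2 * Real.pi * ξ * y * I)) * (F0 y + c * Φ y)) =
        fun y : ℝ => cexp (-(2 * Real.pi * ξ * y * I)) * F0 y +
          c * (cexp (-(2 * Real.pi * ξ * y * I)) * Φ y) := by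
      funext y; ring
    rw [this, integral_add (exp_int hF0.int ξ) ((exp_int hΦ.int ξ).const_mul c), integral_const_mul,
      e1, e2]
    simp
  · rw [integral_add hF0.int.integrableOn (hΦ.int.const_mul c).integrableOn, integral_const_mul, hc,
      div_mul_cancel₀ _ hne]
    ring
  · have a1 := h1' v
    have a2 := h2 v hv
    have a3 := h3 v
    have a4 : (1 + v ^ 2) ^ (-2 : ℝ) ≤ wb (ρ.re + 2) v := by
      rw [wb]
      exact Real.rpow_le_rpow_of_exponent_le (by nlinarith [sq_nonneg v]) (by linarith)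
    have e : F0 v + c * Φ v - tg ρ v =
        (F0 v - Gz (ρ + 2) v) + (Gz (ρ + 2) v - tg ρ v) + c * Φ v := by ring
    rw [e]
    calc _ ≤ ‖F0 v - Gz (ρ + 2) v‖ + ‖Gz (ρ + 2) v - tg ρ v‖ + ‖c * Φ v‖ := norm_add₃_le
      _ ≤ C1 * wb (ρ.re + 2) v + C2 * wb (ρ.re + 2) v + ‖c‖ * (C3 * wb (ρ.re + 2) v) := by
          rw [norm_mul]
          gcongr
          refine a3.trans ?_
          gcongr
      _ = _ := by ring

end Pool.Agent.Q129.NB
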